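import Pool.Agent.H17.AH.TargetsA

/-!
# MP_70ba79_ag, board `ahy_modules`, row REDH

Two forms, one of them linear: reduction to the other one, relative to the hyperplane.
-/

set_option autoImplicit false

namespace Pool.Agent.H86.AH

open MvPolynomial SC Pool.Agent.H27.LV Pool.Agent.H17.VG
open Pool.Agent.H30.VM Pool.Agent.H17.BO
open Pool.Agent.H17.CI (Tup IlT PQT TxT frmT upT RatT)
open Pool.Agent.H17.AH

section Lin

variable {K : Type} [Field K] {n d : ℕ}

private lemma fnl_add (y : Mon (n + 1) d → K) (G H : MvPolynomial (Fin (n + 1)) K) :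
    fnl y (G + H) = fnl y G + fnl y H := by
  unfold fnl
  rw [← Finset.sum_add_distrib]
  refine Finset.sum_congr rfl fun M _ => ?_
  rw [coeff_add]
  ring

private lemma fnl_sub (y : Mon (n + 1) d → K) (G H : MvPolynomial (Fin (n + 1)) K) :
    fnl y (G - H) = fnl y G - fnl y H := by
  unfold fnl
  rw [← Finset.sum_sub_distrib]
  refine Finset.sum_congr rfl fun M _ => ?_
  rw [coeff_sub]
  ring

private lemma fnl_C (y : Mon (n + 1) d → K) (c : K) (G : MvPolynomial (Fin (n + 1)) K) :
    fnl y (C c * G) = c * fnl y G := by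
  unfold fnl
  rw [Finset.mul_sum]
  refine Finset.sum_congr rfl fun M _ => ?_
  rw [coeff_C_mul]
  ring

private lemma fnl_zero (y : Mon (n + 1) d → K) : fnl y (0 : MvPolynomial (Fin (n + 1)) K) = 0 := by
  unfold fnl
  simp

private lemma fnl_sum (y : Mon (n + 1) d → K) {ι : Type} (s : Finset ι)
    (G : ι → MvPolynomial (Fin (n + 1)) K) : fnl y (∑ i ∈ s, G i) = ∑ i ∈ s, fnl y (G i) := by
  classical
  induction s using Finset.induction_on with
  | empty => simp [fnl_zero]
  | insert a s ha ih => rw [Finset.sum_insert ha, Finset.sum_insert ha, fnl_add, ih]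

private lemma fnl_dir (y : Mon (n + 1) d → K) (w : Fin (n + 1) → K) (j : Fin (n + 1))
    (G : MvPolynomial (Fin (n + 1)) K) :
    fnl y (X j * dir w G) = ∑ a, w a * fnl y (X j * pderiv a G) := by
  unfold dir
  rw [Finset.mul_sum, fnl_sum]
  refine Finset.sum_congr rfl fun a _ => ?_
  rw [show (X j * (C (w a) * pderiv a G) : MvPolynomial (Fin (n + 1)) K) =
    C (w a) * (X j * pderiv a G) by ring, fnl_C]

/-- a form of degree zero is a constant -/
private lemma const_of_homog {G : MvPolynomial (Fin (n + 1)) K} (hG : G.IsHomogeneous 0) :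
    G = C (coeff 0 G) := by
  have h := hG.totalDegree_le
  exact (totalDegree_eq_zero_iff_eq_C).1 (Nat.le_zero.1 h)

/-- the derivative of a linear form in the direction `w` -/
private lemma dir_linear {H : MvPolynomial (Fin (n + 1)) K} (hH : H.IsHomogeneous 1)
    (w : Fin (n + 1) → K) : dir w H = C (eval w H) := by
  have h1 : ∀ i, pderiv i H = C (coeff 0 (pderiv i H)) := fun i => by
    have h2 : (pderiv i H).IsHomogeneous (1 - 1) := hH.pderiv
    exact const_of_homog h2
  have h3 : ∑ i, X i * pderiv i H = 1 • H := hH.sum_X_mul_pderiv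
  have h4 := congrArg (eval w) h3
  rw [map_sum, one_smul] at h4
  rw [← h4, map_sum]
  unfold dir
  refine Finset.sum_congr rfl fun i _ => ?_
  rw [h1 i, map_mul, eval_X, eval_C, map_mul]

end Lin

theorem pf_REDH : T_REDH := by
  intro K _ n ι _ i₀ i₁ e F x y ν hne hall he hF hT
  have hsum : ∀ (b : Fin 2) (G : Tup ι K n), fnT (y b) G =
      fnl (fun M : Mon (n + 1) (e i₀ + 1) => y b ⟨i₀, M⟩) (G i₀) +
      fnl (fun M : Mon (n + 1) (e i₁ + 1) => y b ⟨i₁, M⟩) (G i₁) := by
    intro b G
    unfold fnT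
    exact Fintype.sum_eq_add i₀ i₁ hne fun i hi => absurd (hall i) (by tauto)
  have hF0 : (F i₀).IsHomogeneous 1 := by
    have h := hF i₀
    rwa [he] at h
  have hdir : ∀ (b : Fin 2) (j : Fin (n + 1)) (w : Fin (n + 1) → K),
      fnl (fun M : Mon (n + 1) (e i₀ + 1) => y b ⟨i₀, M⟩) (X j * C (eval w (F i₀))) +
      fnl (fun M : Mon (n + 1) (e i₁ + 1) => y b ⟨i₁, M⟩) (X j * dir w (F i₁)) =
      -(x j * ∑ a, ν b a * w a) := by
    intro b j w
    rw [← dir_linear hF0 w, fnl_dir, fnl_dir, ← Finset.sum_add_distrib, Finset.mul_sum,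
      ← Finset.sum_neg_distrib]
    refine Finset.sum_congr rfl fun a _ => ?_
    have h := hT.grad b j a
    rw [hsum] at h
    rw [← mul_add, h]
    ring
  refine ⟨⟨?_, ?_, ?_, hT.orth⟩, ?_⟩
  · have h1 : i₁ ∈ ({i₁} : Finset ι) := Finset.mem_singleton_self i₁
    have hinj : Function.Injective
        (![Sum.inl 0, Sum.inl 1, Sum.inr ⟨i₁, h1⟩] : Fin 3 → Fin 2 ⊕ ({i₁} : Finset ι)) := by
      intro s t hst
      fin_cases s <;> fin_cases t <;> simp_all
    have h2 := hT.ind.comp _ hinj
    have h3 : (![ν 0, ν 1, fun a => eval x (pderiv a (F i₁))] : Fin 3 → Fin (n + 1) → K) =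
        (Sum.elim ν fun (i : ({i₁} : Finset ι)) (a : Fin (n + 1)) => eval x (pderiv a (F i))) ∘
        (![Sum.inl 0, Sum.inl 1, Sum.inr ⟨i₁, h1⟩] : Fin 3 → Fin 2 ⊕ ({i₁} : Finset ι)) := by
      funext s
      fin_cases s <;> rfl
    rw [h3]
    exact h2
  · intro b j w hw
    have h := hdir b j w
    rw [hw, map_zero, mul_zero, fnl_zero, zero_add] at h
    exact h
  · intro b
    have h := hT.mul b i₁
    rw [hsum] at h
    have h0 : (letI := Classical.decEq ι; if i₀ = i₁ then F i₀ else 0) = 0 := if_neg hne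
    have h1 : (letI := Classical.decEq ι; if i₁ = i₁ then F i₁ else 0) = F i₁ := if_pos rfl
    rw [h0, h1, fnl_zero, zero_add] at h
    exact h
  · intro w hw Q hQ a
    have hQ0 : Q i₀ = C (coeff 0 (Q i₀)) := by
      have h := hQ i₀
      rw [he] at h
      exact const_of_homog h
    generalize hq : coeff 0 (Q i₀) = q0 at hQ0
    have hent : ∀ (b : Fin 2) (j : Fin (n + 1)), fnT (y b) (fun i => X j * Q i) =
        fnl (fun M : Mon (n + 1) (e i₁ + 1) => y b ⟨i₁, M⟩)
          (X j * (Q i₁ - C q0 * dir w (F i₁))) - q0 * (∑ a, ν b a * w a) * x j := by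
      intro b j
      rw [hsum]
      have h := hdir b j w
      rw [hw, map_one, mul_one] at h
      have h1 : fnl (fun M : Mon (n + 1) (e i₀ + 1) => y b ⟨i₀, M⟩) (X j * Q i₀) =
          q0 * fnl (fun M : Mon (n + 1) (e i₀ + 1) => y b ⟨i₀, M⟩) (X j) := by
        rw [hQ0, mul_comm, fnl_C]
      have h2 : (X j * (Q i₁ - C q0 * dir w (F i₁)) : MvPolynomial (Fin (n + 1)) K) =
          X j * Q i₁ - C q0 * (X j * dir w (F i₁)) := by ring
      rw [h1, h2, fnl_sub, fnl_C]
      linear_combination q0 * h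
    unfold det3T det3
    simp only [hent, Matrix.det_fin_three, Matrix.of_apply, Matrix.cons_val_zero,
      Matrix.cons_val_one, Matrix.cons_val]
    ring

end Pool.Agent.H86.AH
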