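import Pool.Agent.H17.AH.TargetsD

/-!
# MP_70ba79_ag, board `ahy_modules`, row BZH

The zeros of a nonzero binary form over an algebraically closed field are rational.
-/

set_option autoImplicit false

namespace Pool.Agent.H86.AH

open MvPolynomial SC Pool.Agent.H27.LV Pool.Agent.H17.VG Pool.Agent.H17.BO Pool.Agent.H17.AH

/-- values of a form at a multiple of a point -/
private theorem hom_mul {K : Type} [Field K] {m d : ℕ} {F : MvPolynomial (Fin m) K}
    (hF : F.IsHomogeneous d) (c : K) (x : Fin m → K) :
    eval (fun l => c * x l) F = c ^ d * eval x F := by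
  rw [MvPolynomial.eval_eq', MvPolynomial.eval_eq', Finset.mul_sum]
  apply Finset.sum_congr rfl
  intro s hs
  have h1 : s.degree = d := by
    have := hF (MvPolynomial.mem_support_iff.1 hs)
    rw [← this, Finsupp.degree_eq_weight_one]
    rfl
  have h2 : ∏ i, (c * x i) ^ s i = c ^ d * ∏ i, x i ^ s i := by
    simp_rw [mul_pow]
    rw [Finset.prod_mul_distrib, Finset.prod_pow_eq_pow_sum, ← h1]
    congr 2
    rw [Finsupp.degree_eq_sum]
  rw [h2]
  ring

section

variable {k : Type} [Field k] {n d : ℕ} (F : MvPolynomial (Fin (n + 1)) k)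
  (A B C : Fin (n + 1) → k)

/-- the value at the point with the parameters `u, v` -/
private noncomputable def EV (Ω : Type) [Field Ω] [Algebra k Ω] (u v : Ω) : Ω :=
  eval (fun l => u ^ 2 * algebraMap k Ω (A l) + u * v * algebraMap k Ω (B l) +
      v ^ 2 * algebraMap k Ω (C l)) (MvPolynomial.map (algebraMap k Ω) F)

/-- the polynomial -/
private noncomputable def WW : Polynomial k :=
  MvPolynomial.aeval (fun l => Polynomial.C (A l) + Polynomial.C (B l) * Polynomial.X +
    Polynomial.C (C l) * Polynomial.X ^ 2) F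

private theorem aeval_WW (Ω : Type) [Field Ω] [Algebra k Ω] (τ : Ω) :
    Polynomial.aeval τ (WW F A B C) = EV F A B C Ω 1 τ := by
  unfold WW EV
  rw [MvPolynomial.comp_aeval_apply, MvPolynomial.eval_map, MvPolynomial.aeval_def]
  congr 1
  funext l
  simp only [map_add, map_mul, map_pow, Polynomial.aeval_C, Polynomial.aeval_X]
  ring

variable {F}

private theorem EV_smul (hF : F.IsHomogeneous d) (Ω : Type) [Field Ω] [Algebra k Ω] (c u v : Ω) :
    EV F A B C Ω (c * u) (c * v) = c ^ (2 * d) * EV F A B C Ω u v := by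
  unfold EV
  rw [pow_mul, ← hom_mul (hF.map (algebraMap k Ω))]
  congr 1
  congr 1
  funext l
  ring

private theorem EV_div (hF : F.IsHomogeneous d) (Ω : Type) [Field Ω] [Algebra k Ω] (u v : Ω)
    (hu : u ≠ 0) (h : EV F A B C Ω u v = 0) : Polynomial.aeval (v / u) (WW F A B C) = 0 := by
  have h1 := EV_smul A B C hF Ω u 1 (v / u)
  rw [mul_one, mul_div_cancel₀ v hu, h] at h1
  rw [aeval_WW]
  rcases mul_eq_zero.1 h1.symm with h2 | h2
  · exact absurd h2 (pow_ne_zero _ hu)
  · exact h2

private theorem EV_zero (hF : F.IsHomogeneous d) (Ω : Type) [Field Ω] [Algebra k Ω] (v : Ω) :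
    EV F A B C Ω 0 v = v ^ (2 * d) * algebraMap k Ω (eval C F) := by
  have h1 := EV_smul A B C hF Ω v 0 1
  rw [mul_zero, mul_one] at h1
  rw [h1]
  congr 1
  unfold EV
  have h2 : (fun l => (0 : Ω) ^ 2 * algebraMap k Ω (A l) + 0 * 1 * algebraMap k Ω (B l) +
      1 ^ 2 * algebraMap k Ω (C l)) = fun l => algebraMap k Ω (C l) := by
    funext l
    ring
  rw [h2, MvPolynomial.eval_map]
  exact (MvPolynomial.eval₂_comp (algebraMap k Ω) C F).symm

/-- the value over `k` -/
private theorem EV_self (u v : k) : EV F A B C k u v =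
    eval (fun l => u ^ 2 * A l + u * v * B l + v ^ 2 * C l) F := by
  unfold EV
  simp only [Algebra.algebraMap_self, RingHom.id_apply, MvPolynomial.map_id]

end

theorem pf_BZH : T_BZH := by
  classical
  intro k _ _ _ n d F hF A B C
  set W := WW F A B C with hW
  by_cases hW0 : W = 0
  · left
    have h1 : ∀ u v : k, u ≠ 0 → EV F A B C k u v = 0 := by
      intro u v hu
      have h2 := EV_smul A B C hF k u 1 (v / u)
      rw [mul_one, mul_div_cancel₀ v hu, ← aeval_WW, ← hW, hW0, map_zero, mul_zero] at h2
      exact h2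
    -- the value at infinity
    set G : Polynomial k := WW F C B A with hG
    have h3 : ∀ t : k, t ≠ 0 → G.eval t = 0 := by
      intro t ht
      have h4 : G.eval t = EV F A B C k t 1 := by
        have h5 := aeval_WW F C B A k t
        rw [Polynomial.coe_aeval_eq_eval] at h5
        rw [hG, h5, EV_self, EV_self]
        congr 1
        congr 1
        funext l
        ring
      rw [h4, h1 t 1 ht]
    have h6 : G = 0 := by
      apply Polynomial.eq_zero_of_infinite_isRoot
      refine Set.Infinite.mono (s := {t : k | t ≠ 0}) (fun t ht => h3 t ht) ?_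
      have : {t : k | t ≠ 0} = ({0} : Set k)ᶜ := by
        ext t
        simp
      rw [this]
      exact (Set.finite_singleton (0 : k)).infinite_compl
    have h7 : eval C F = 0 := by
      have h8 := aeval_WW F C B A k 0
      rw [← hG, h6, map_zero, EV_self] at h8
      rw [h8]
      congr 1
      congr 1
      funext l
      ring
    intro s t
    rw [← EV_self]
    by_cases hs : s = 0
    · rw [hs, EV_zero A B C hF, h7, map_zero, mul_zero]
    · exact h1 s t hs
  · right
    intro Ω _ _ u v h
    by_cases hu : u = 0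
    · exact ⟨0, 1, Or.inr one_ne_zero, by rw [hu, map_zero, mul_zero, zero_mul]⟩
    · have h1 := EV_div A B C hF Ω u v hu h
      have halg : IsAlgebraic k (v / u) := ⟨W, hW0, h1⟩
      have h2 := IsAlgClosed.degree_eq_one_of_irreducible k (minpoly.irreducible halg.isIntegral)
      obtain ⟨t, ht⟩ := minpoly.mem_range_of_degree_eq_one k (v / u) h2
      refine ⟨1, t, Or.inl one_ne_zero, ?_⟩
      rw [ht, map_one, mul_one, mul_div_cancel₀ v hu]

end Pool.Agent.H86.AH
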